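import Pool.Agent.Helper6.O3.St

/-!
# Project O3: module BC (completeness in the nondegenerate case)
-/

set_option autoImplicit false

namespace Pool.Agent.Helper78.O3

open Pool.Agent.Helper6.O3 Filter Topology
open Pool.Agent.Helper99.DF (T TL sq chk Cert ver StVER StTRA StCMP StSND StPR1 StPRC StVP)

/-- The defect of the shifted sequence. -/
theorem ka_shift (p q r : ℝ) (c : ℕ → ℝ) (n m : ℕ) :
    ka p q r (fun k => c (k + n)) m = ka p q r c (m + n) := by
  simp only [ka]
  rw [show m + 3 + n = m + n + 3 by omega, show m + 2 + n = m + n + 2 by omega,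
    show m + 1 + n = m + n + 1 by omega]

/-- The minors of the shifted sequence. -/
theorem Th_shift (c : ℕ → ℝ) (n k : ℕ) (hk : 2 ≤ k) :
    Th (fun k => c (k + n)) k = Th c (k + n) := by
  simp only [Th]
  rw [show k - 1 + n = k + n - 1 by omega, show k + 1 + n = k + n + 1 by omega,
    show k - 2 + n = k + n - 2 by omega, show k + 2 + n = k + n + 2 by omega]

/-- The values of the first iterate are positive where those of the second are. -/
theorem T_pos_of_TT {c : ℕ → ℝ} (h : Inf c) (k : ℕ) (hk : 0 < T (T c) k) : 0 < T c k := by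
  have h0 : 0 ≤ T c k := h 1 k
  have h1 : 0 ≤ T c (k - 1) := h 1 (k - 1)
  have h2 : 0 ≤ T c (k + 1) := h 1 (k + 1)
  have h3 : T (T c) k = T c k ^ 2 - T c (k - 1) * T c (k + 1) := rfl
  rcases h0.lt_or_eq with h4 | h4
  · exact h4
  · exfalso
    rw [h3, ← h4] at hk
    nlinarith [mul_nonneg h1 h2]

theorem hBC (hSP : StSP) (hZP : StZP) (hPF : StPF) (hCV : StCV) (hRG : StRG) : StBC := by
  intro c p q r N c0 c1 hI hka hTh
  rcases hZP c c0 c1 hI with ⟨n, hn0, hn1, hpos⟩ | hinf
  · -- the shifted sequence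
    have hρI : Inf (fun k => c (k + n)) := ((hSP c n hn0 hn1).1 hI).2
    obtain ⟨ρ, hρ⟩ : ∃ ρ : ℕ → ℝ, ρ = fun k => c (k + n) := ⟨_, rfl⟩
    rw [← hρ] at hρI
    have e0 : ρ 0 = 0 := by rw [hρ]; simpa using hn0
    have e1 : ρ 1 = 0 := by
      rw [hρ]
      show c (1 + n) = 0
      rw [show 1 + n = n + 1 by omega]
      exact hn1
    have epos : ∀ k, 2 ≤ k → 0 < ρ k := by
      intro k hk
      rw [hρ]
      exact hpos (k + n) (by omega)
    have eka : ∀ m, ka p q r ρ m = ka p q r c (m + n) := by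
      intro m
      rw [hρ]
      exact ka_shift p q r c n m
    have ekaN : ∀ m, N ≤ m → ka p q r ρ m = 0 := by
      intro m hm
      rw [eka]
      exact hka _ (by omega)
    have eTh0 : ∀ k, N + 2 ≤ k → 0 < Th ρ k := by
      intro k hk
      have h1 : Th ρ k ≠ 0 := by
        rw [hρ, Th_shift c n k (by omega)]
        exact hTh _ (by omega)
      have h2 : 0 ≤ T (T ρ) k := hρI 2 k
      rw [TT_eq ρ k (by omega)] at h2
      have h3 : 0 ≤ Th ρ k := by
        by_contra h4
        push Not at h4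
        have := mul_neg_of_pos_of_neg (epos k (by omega)) h4
        linarith
      exact lt_of_le_of_ne h3 (Ne.symm h1)
    have eTh1 : ∀ k, N + 2 ≤ k → Th ρ (k + 1) = r * Th ρ k := by
      intro k hk
      rw [Th_step p q r ρ k (by omega) (ekaN _ (by omega)) (ekaN _ (by omega)),
        ekaN (k - 2) (by omega)]
      ring
    have hr : 0 < r := by
      have h1 := eTh0 (N + 2) le_rfl
      have h2 := eTh0 (N + 2 + 1) (by omega)
      rw [eTh1 (N + 2) le_rfl] at h2
      exact pos_of_mul_pos_left h2 h1.le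
    obtain ⟨K, hK⟩ : ∃ K : ℝ, K = Th ρ (N + 2) / r ^ (N + 2) := ⟨_, rfl⟩
    have hK0 : 0 < K := by
      rw [hK]
      exact div_pos (eTh0 _ le_rfl) (pow_pos hr _)
    have eThK : ∀ j, Th ρ (N + 2 + j) = K * r ^ (N + 2 + j) := by
      intro j
      induction j with
      | zero =>
        rw [hK]
        simp only [Nat.add_zero]
        rw [div_mul_cancel₀ _ (pow_pos hr _).ne']
      | succ j ih =>
        rw [show N + 2 + (j + 1) = N + 2 + j + 1 by omega, eTh1 _ (by omega), ih, pow_succ]
        ring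
    have hall : ∀ m, ka p q r ρ m = 0 := by
      refine hRG ρ p q r K (N + 2) e0 e1 hρI epos (fun m hm => ekaN m (by omega)) hr hK0 ?_
      intro k hk
      obtain ⟨j, rfl⟩ := Nat.exists_eq_add_of_le hk
      rw [TT_eq ρ _ (by omega), eThK j]
      ring
    have hTT := hPF ρ p q r e0 e1 hall hr.ne'
    have hT : ∀ k, 2 ≤ k → 0 < T ρ k := by
      intro k hk
      apply T_pos_of_TT hρI
      rw [hTT k]
      have h1 := epos 2 le_rfl
      have h2 := epos k hk
      positivity
    refine ⟨n, hn0, hn1, hpos (n + 2) le_rfl, ?_, hr, Or.inl (hCV ρ p q r e0 e1 epos hT hall hr)⟩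
    intro m hm
    obtain ⟨j, rfl⟩ := Nat.exists_eq_add_of_le hm
    have := eka j
    rw [hall j] at this
    rw [show n + j = j + n by omega]
    exact this.symm
  · obtain ⟨n, hn, hn0, hn1⟩ := hinf (N + 2)
    obtain ⟨m, hm, hm0, hm1⟩ := hinf (n + 3)
    have hc : ∀ k, 0 ≤ c k := fun k => hI 0 k
    have h2 : c (n + 2) ≠ 0 := by
      intro h
      apply hTh (n + 2) (by omega)
      simp only [Th, show n + 2 - 1 = n + 1 by omega, show n + 2 - 2 = n by omega]
      rw [hn0, hn1, h]
      ring
    have h2' : 0 < c (n + 2) := lt_of_le_of_ne (hc _) (Ne.symm h2)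
    have t0 : Th c n = c (n + 2) * c (n - 1) ^ 2 := by
      simp only [Th]
      rw [hn0, hn1]
      ring
    have t1 : Th c (n + 1) = c (n + 2) ^ 2 * c (n - 1) := by
      simp only [Th, show n + 1 - 1 = n by omega, show n + 1 - 2 = n - 1 by omega,
        show n + 1 + 1 = n + 2 by omega]
      rw [hn0, hn1]
      ring
    have hst := Th_step p q r c n (by omega) (hka _ (by omega)) (hka _ (by omega))
    rw [hka (n - 2) (by omega), zero_mul, add_zero, t0, t1] at hst
    have h3 : c (n - 1) ≠ 0 := by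
      intro h
      apply hTh (n + 1) (by omega)
      rw [t1, h]
      ring
    have h3' : 0 < c (n - 1) := lt_of_le_of_ne (hc _) (Ne.symm h3)
    have hr : 0 < r := by
      have h4 : 0 < r * (c (n + 2) * c (n - 1) ^ 2) := by
        rw [← hst]
        positivity
      exact pos_of_mul_pos_left h4 (by positivity)
    exact ⟨n, hn0, hn1, h2', fun m hm => hka m (by omega), hr, Or.inr ⟨m, hm, hm0, hm1⟩⟩

end Pool.Agent.Helper78.O3
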